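import Pool.Agent.Helper617.CR.Split
import Pool.Agent.Helper617.FS.Comb4

/-!
Compactness: infinite large sets contain finite large sets.
-/

namespace Pool.Agent.Helper617.CR

open CT Filter
open Pool.Agent.Helper617.FS (cut mem_cut cut_mono subset_cut UU ev_ge lim lim_spec lim_bdd lim_lt
  many)

/-- height of the largest full binary tree -/
def ht : CT → ℕ
  | .leaf _ _ => 0
  | .node _ l r => min (ht l) (ht r) + 1

theorem perf_le : ∀ {k : ℕ} {T : CT}, perf k T → k ≤ ht T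
  | 0, _, _ => Nat.zero_le _
  | k + 1, .leaf _ _, h => absurd h (by simp [perf])
  | k + 1, .node _ l r, h => by
    have h1 := perf_le h.1
    have h2 := perf_le h.2
    simp only [ht]
    omega

variable {col : ℕ → ℕ} {S : Finset ℕ} {l r : CT} {Z : Set ℕ} {n : ℕ}

/-- the induction hypothesis of the compactness theorem -/
def IHn (col : ℕ → ℕ) (n : ℕ) : Prop := ∀ (S : Finset ℕ) (l r : CT) (Z : Set ℕ),
  (CT.node S l r).WF → LL col S l r Z → ∃ t, L col n (.node S l r) (cut Z t)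

theorem LL.cv (hZ : LL col S l r Z) (t : ℕ) : Cv col S (cut Z t) := by
  rintro z ⟨a, ha, haz⟩ _
  exact hZ.1 z ⟨a, (mem_cut.mp ha).2, haz⟩

/-- a point with a given leaf colour -/
theorem LL.leafpt (hZ : LL col S l r Z) (n : ℕ) {a : ℕ} (ha : a ∈ (CT.node S l r).lv) :
    ∃ y ∈ Z, L col n (.leaf S a) {y} ∧ col y = a := by
  have key : ∀ ε, a ∈ (sub l r ε).lv → ∃ y ∈ Z, L col n (.leaf S a) {y} ∧ col y = a := by
    intro ε hε
    obtain ⟨D, hD, _, hL⟩ := hZ.2 (n + 1) ε 0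
    obtain ⟨D', hD', hL', hc⟩ := Ft hL (.leaf (sub l r ε).rng a) (.here (.leaf hε))
    obtain ⟨y, hy⟩ := L_ne hL'
    have hya : col y = a := Finset.mem_singleton.mp (hc y hy)
    refine ⟨y, hD (hD' hy), ?_, hya⟩
    rw [L_leaf]
    refine ⟨Finset.singleton_nonempty y, ?_, ?_⟩
    · intro z hz
      rw [Finset.mem_singleton.mp hz]; exact hya
    · rintro z ⟨b, hb, hbz⟩ _
      rw [Finset.mem_singleton.mp hb] at hbz
      exact hZ.1 z ⟨y, hD (hD' hy), hbz⟩
  rcases Finset.mem_union.mp ha with h | h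
  · exact key false h
  · exact key true h

theorem comp_M1 (hZ : LL col S l r Z) (n : ℕ) :
    ∃ t, ∀ ε, ∃ D' ⊆ cut Z t, L col n (sub l r ε) D' := by
  obtain ⟨D1, h1, _, h3⟩ := hZ.2 n true 0
  obtain ⟨D2, h1', _, h3'⟩ := hZ.2 n false 0
  refine ⟨max (D1.sup id) (D2.sup id), ?_⟩
  intro ε
  cases ε
  · exact ⟨D2, subset_cut h1' (le_max_right _ _), h3'⟩
  · exact ⟨D1, subset_cut h1 (le_max_left _ _), h3⟩

theorem comp_M3 (IH : IHn col n) (hT : (CT.node S l r).WF) (hZ : LL col S l r Z) :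
    ∃ t, M3 (L col n) (.node S l r) (cut Z t) := by
  classical
  obtain ⟨x0, hx0, _⟩ := hZ.exists_gt 0
  obtain ⟨D, hD, hDD⟩ := many (Φ := fun D => (D : Set ℕ) ⊆ Z ∧ L col n (.node S l r) D) (by
    intro m
    obtain ⟨t, ht⟩ := IH _ _ _ _ hT (hZ.tail m)
    refine ⟨_, ⟨fun x hx => ((mem_cut.mp hx).2).1, ht⟩, fun x hx => ((mem_cut.mp hx).2).2⟩)
  let T := max x0 ((Finset.range (x0 + 1)).sup (fun i => (D i).sup id))
  refine ⟨T, ?_⟩
  intro H hH
  have hcard : H.card ≤ x0 := hH x0 (mem_cut.mpr ⟨le_max_left _ _, hx0⟩)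
  have hex : ∃ i < x0 + 1, ∀ h ∈ H, ¬ ((∃ a ∈ D i, a ≤ h) ∧ (∃ b ∈ D i, h ≤ b)) := by
    by_contra hcon
    push Not at hcon
    choose! f hf1 hf2 using hcon
    have hinj : Set.InjOn f (Finset.range (x0 + 1) : Finset ℕ) := by
      intro i hi j hj hij
      have hi' := Finset.mem_range.mp (Finset.mem_coe.mp hi)
      have hj' := Finset.mem_range.mp (Finset.mem_coe.mp hj)
      obtain ⟨⟨a, ha, ha'⟩, b, hb, hb'⟩ := hf2 i hi'
      obtain ⟨⟨a2, ha2, ha2'⟩, b2, hb2, hb2'⟩ := hf2 j hj'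
      rcases lt_trichotomy i j with h | h | h
      · have := hDD i j h b hb a2 ha2
        omega
      · exact h
      · have := hDD j i h b2 hb2 a ha
        omega
    have hc := Finset.card_le_card_of_injOn f (s := Finset.range (x0 + 1)) (t := H)
      (fun i hi => hf1 i (Finset.mem_range.mp hi)) hinj
    rw [Finset.card_range] at hc
    omega
  obtain ⟨i, hi, hih⟩ := hex
  refine ⟨D i, subset_cut (hD i).1 ?_, (hD i).2, ?_⟩
  · refine le_trans ?_ (le_max_right _ _)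
    exact Finset.le_sup (f := fun i => (D i).sup id) (Finset.mem_range.mpr hi)
  · intro h hh
    by_cases h1 : ∃ a ∈ D i, a ≤ h
    · right
      intro y hy
      by_contra hcon
      exact hih h hh ⟨h1, y, hy, not_lt.mp hcon⟩
    · left
      intro y hy
      by_contra hcon
      exact h1 ⟨y, hy, not_lt.mp hcon⟩

theorem comp_M4 (IH : IHn col n) (hT : (CT.node S l r).WF) (hZ : LL col S l r Z) :
    ∃ t, M4 (L col n) (.node S l r) (cut Z t) := by
  obtain ⟨x0, hx0, _⟩ := hZ.exists_gt 0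
  obtain ⟨t, ht⟩ := IH _ _ _ _ hT (hZ.tail (FF x0))
  refine ⟨max t x0, x0, mem_cut.mpr ⟨le_max_right _ _, hx0⟩, _,
    cut_mono (fun x hx => hx.1) (le_max_left _ _), ht, ?_⟩
  intro y hy
  exact (((mem_cut.mp hy).2).2).le

theorem comp_M6 (IH : IHn col n) (hT : (CT.node S l r).WF) (hZ : LL col S l r Z) :
    ∃ t, M6 col (L col n) (.node S l r) (cut Z t) := by
  classical
  by_contra hcon
  unfold M6 at hcon
  push Not at hcon
  choose k c hk hc hbad using hcon
  obtain ⟨x0, hx0, _⟩ := hZ.exists_gt 0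
  have hkx : ∀ t, x0 ≤ t → k t ≤ x0 := fun t ht => hk t x0 (mem_cut.mpr ⟨ht, hx0⟩)
  have hbd : ∀ x, ∀ᶠ t in (UU : Filter ℕ), c t x < x0 := fun x =>
    (ev_ge x0).mono fun t ht => lt_of_lt_of_le (hc t x) (hkx t ht)
  let c' : ℕ → ℕ := fun x => lim (fun t => c t x) 0
  have hc' : ∀ x, c' x < x0 := fun x => lim_lt _ _ _ (hbd x)
  obtain ⟨Z', hZ', hLL, φ, hφ⟩ := hZ.points hT x0 c' hc'
  obtain ⟨t1, ht1⟩ := IH _ _ _ _ hT hLL
  set F0 := cut Z' t1 with hF0
  have hF0Z : ∀ x ∈ F0, x ∈ Z' := fun x hx => (mem_cut.mp hx).2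
  have e1 : ∀ᶠ t in (UU : Filter ℕ), ∀ x ∈ F0, c t x = c' x := by
    refine (Filter.eventually_all_finset _).mpr fun x _ => ?_
    exact lim_bdd _ 0 x0 (hbd x)
  obtain ⟨t, ht, ht1t⟩ := (e1.and (ev_ge t1)).exists
  have hsub : F0 ⊆ cut Z t := cut_mono hZ' ht1t
  obtain ⟨x, hx, hn⟩ := hbad t F0 hsub ht1 φ
  apply hn
  rw [ht x hx]
  exact hφ x (hF0Z x hx)

/-- finitely many bounds -/
theorem bound_fin {ι : Type} (s : Set ι) (hs : s.Finite) (Pr : ι → ℕ → Prop)
    (hmono : ∀ i t t', t ≤ t' → Pr i t → Pr i t') (h : ∀ i ∈ s, ∃ t, Pr i t) :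
    ∃ t, ∀ i ∈ s, Pr i t := by
  classical
  choose! f hf using h
  refine ⟨hs.toFinset.sup f, fun i hi => hmono i _ _ ?_ (hf i hi)⟩
  exact Finset.le_sup (hs.mem_toFinset.mpr hi)

theorem comp_Mt (IH : IHn col n) (hT : (CT.node S l r).WF) (hZ : LL col S l r Z) :
    ∃ t, Mt col (L col n) (.node S l r) (cut Z t) := by
  classical
  obtain ⟨t, ht⟩ := bound_fin {T' | Emb false T' (.node S l r)} (Emb.finite _)
    (fun T' t => ∃ Y' ⊆ cut Z t, L col n T' Y' ∧ ∀ y ∈ Y', col y ∈ T'.lv)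
    (by
      rintro T' t t' htt ⟨Y', h1, h2⟩
      exact ⟨Y', h1.trans (cut_mono subset_rfl htt), h2⟩)
    (by
      intro T' hT'
      have hside : ∀ ε, Emb false T' (sub l r ε) → ∃ t, ∃ Y' ⊆ cut Z t, L col n T' Y' ∧
          ∀ y ∈ Y', col y ∈ T'.lv := by
        intro ε hε
        obtain ⟨D, hD, _, hL⟩ := hZ.2 (n + 1) ε 0
        obtain ⟨D', hD', hL', hc⟩ := Ft hL T' hε
        exact ⟨D'.sup id, D', subset_cut ((Finset.coe_subset.mpr hD').trans hD) le_rfl, hL', hc⟩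
      have hT'' : Emb false T' (.node S l r) := hT'
      cases hT'' with
      | here h =>
        cases h with
        | @leaf _ a h =>
          obtain ⟨y, hy, hL, hya⟩ := hZ.leafpt n h
          refine ⟨y, {y}, subset_cut (by simpa using hy) (by simp), hL, ?_⟩
          intro z hz
          rw [Finset.mem_singleton.mp hz, hya]
          exact Finset.mem_singleton_self a
        | @node _ _ l' _ r' hl hr =>
          obtain ⟨Z', hZ', hLL, hlv⟩ := hZ.thin hl hr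
          obtain ⟨t1, ht1⟩ := IH _ _ _ _ ((Emb.node hl hr).wf hT) hLL
          exact ⟨t1, cut Z' t1, cut_mono hZ' le_rfl, ht1, fun y hy => hlv y (mem_cut.mp hy).2⟩
      | left h => exact hside false h
      | right h => exact hside true h)
  exact ⟨t, fun T' hT' => ht T' hT'⟩

open Classical in
/-- limit of a sequence of colourings -/
noncomputable def limB (c : ℕ → ℕ → ℕ → Bool) (x y : ℕ) : Bool :=
  decide (∀ᶠ t in (UU : Filter ℕ), c t x y = true)

theorem limB_spec (c : ℕ → ℕ → ℕ → Bool) (x y : ℕ) :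
    ∀ᶠ t in (UU : Filter ℕ), c t x y = limB c x y := by
  classical
  by_cases h : ∀ᶠ t in (UU : Filter ℕ), c t x y = true
  · have e : limB c x y = true := decide_eq_true h
    rw [e]; exact h
  · have e : limB c x y = false := decide_eq_false h
    rw [e]
    have := Ultrafilter.eventually_not.mpr h
    exact this.mono fun t ht => by simpa using ht

theorem comp_Mc (IH : IHn col n) (hT : (CT.node S l r).WF) (hZ : LL col S l r Z) :
    ∃ t, Mc col (L col n) (.node S l r) (cut Z t) := by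
  classical
  obtain ⟨t, ht⟩ := bound_fin {k : ℕ | k ≤ ht (.node S l r)} (Set.finite_Iic _)
    (fun k t => ∀ c : ℕ → ℕ → Bool, perf (gg k) (.node S l r) →
      ∃ T', Emb true T' (.node S l r) ∧ perf k T' ∧ ∃ Y' ⊆ cut Z t, L col n T' Y' ∧
        Star col c T' (Y' : Set ℕ))
    (by
      intro k t t' htt h c hk
      obtain ⟨T', h1, h2, Y', h3, h4⟩ := h c hk
      exact ⟨T', h1, h2, Y', h3.trans (cut_mono subset_rfl htt), h4⟩)
    (by
      intro k _
      cases k with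
      | zero =>
        obtain ⟨a, ha⟩ := lv_nonempty (.node S l r)
        obtain ⟨y, hy, hL, _⟩ := hZ.leafpt n ha
        refine ⟨y, fun c _ => ⟨.leaf S a, .leaf ha, trivial, {y}, ?_, hL, Star.single c _ y⟩⟩
        exact subset_cut (by simpa using hy) (by simp)
      | succ k =>
        by_contra hcon
        push Not at hcon
        choose c hk hbad using hcon
        obtain ⟨l', r', hE, hp, Z', hZ', hLL, hst⟩ := hZ.crt hT k (hk 0) (limB c)
        obtain ⟨t1, ht1⟩ := IH _ _ _ _ (hE.wf hT) hLL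
        set F0 := cut Z' t1 with hF0
        have hF0Z : ∀ x ∈ F0, x ∈ Z' := fun x hx => (mem_cut.mp hx).2
        have e1 : ∀ᶠ t in (UU : Filter ℕ), ∀ x ∈ F0, ∀ y ∈ F0, c t x y = limB c x y := by
          refine (Filter.eventually_all_finset _).mpr fun x _ => ?_
          refine (Filter.eventually_all_finset _).mpr fun y _ => ?_
          exact limB_spec c x y
        obtain ⟨t, ht, ht1t⟩ := (e1.and (ev_ge t1)).exists
        have hsub : F0 ⊆ cut Z t := cut_mono hZ' ht1t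
        refine hbad t _ hE hp F0 hsub ht1 ?_
        intro S' hS' x hx y hy y' hy' hxy hyy' hxS hyS
        rw [ht x hx y hy, ht x hx y' hy']
        exact hst S' hS' x (hF0Z x hx) y (hF0Z y hy) y' (hF0Z y' hy') hxy hyy' hxS hyS)
  refine ⟨t, fun k c hk => ht k ?_ c hk⟩
  have h1 := perf_le hk
  have h2 : k ≤ gg k := by
    clear hk h1
    induction k with
    | zero => exact le_rfl
    | succ k ih =>
      have h3 : ∀ j, j ≤ N2 j := by
        intro j
        induction j with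
        | zero => exact Nat.zero_le _
        | succ j ihj =>
          simp only [N2, N1]
          have h5 : N2 j ≤ 2 ^ 2 ^ m1 (N2 j) * N2 j := Nat.le_mul_of_pos_left _ (by positivity)
          omega
      have h4 := h3 (gg k + 1)
      simp only [gg]
      omega
  exact h2.trans h1

/-- the limit of a sequence of sets -/
def limS (X : ℕ → Set ℕ) : Set ℕ := {x | ∀ᶠ t in (UU : Filter ℕ), x ∈ X t}

theorem limS_spec (X : ℕ → Set ℕ) (x : ℕ) :
    ∀ᶠ t in (UU : Filter ℕ), (x ∈ X t ↔ x ∈ limS X) := by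
  by_cases h : ∀ᶠ t in (UU : Filter ℕ), x ∈ X t
  · exact h.mono fun t ht => iff_of_true ht h
  · have := Ultrafilter.eventually_not.mpr h
    exact this.mono fun t ht => iff_of_false ht h

theorem comp_M7k (IH : IHn col n) (hT : (CT.node S l r).WF) (hZ : LL col S l r Z) (k h : ℕ) :
    ∃ t, M7' col (L col n) (.node S l r) (cut Z t) k h := by
  classical
  cases k with
  | zero =>
    obtain ⟨D0, hD0, _, hL0⟩ := hZ.2 n false 0
    obtain ⟨D1, hD1, _, hL1⟩ := hZ.2 n true 0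
    obtain ⟨a, ha⟩ := lv_nonempty (.node S l r)
    obtain ⟨y, hy, hLy, _⟩ := hZ.leafpt n ha
    refine ⟨max y (max (D0.sup id) (D1.sup id)), ?_⟩
    intro X hk
    rw [show 0 + h + 1 = h + 1 by omega] at hk
    have hD0' : D0 ⊆ cut Z (max y (max (D0.sup id) (D1.sup id))) :=
      subset_cut hD0 ((le_max_left _ _).trans (le_max_right _ _))
    have hD1' : D1 ⊆ cut Z (max y (max (D0.sup id) (D1.sup id))) :=
      subset_cut hD1 ((le_max_right _ _).trans (le_max_right _ _))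
    by_cases h0 : ∃ x ∈ X, (∃ a ∈ D0, a ≤ x) ∧ (∃ b ∈ D0, x ≤ b)
    · by_cases h1 : ∃ x ∈ X, (∃ a ∈ D1, a ≤ x) ∧ (∃ b ∈ D1, x ≤ b)
      · right
        obtain ⟨x, hx, ⟨b, hb, hbx⟩, b', hb', hxb'⟩ := h0
        obtain ⟨x', hx', ⟨e, he, hex⟩, e', he', hxe'⟩ := h1
        refine ⟨l.rng, .leaf S a, .leaf ha, trivial, hT.1, {y}, ?_, hLy, ?_,
          ⟨x, hx, ⟨⟨b, hD0' hb, hbx⟩, b', hD0' hb', hxb'⟩, ?_⟩,
          x', hx', ⟨⟨e, hD1' he, hex⟩, e', hD1' he', hxe'⟩, ?_⟩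
        · rw [Finset.singleton_subset_iff, mem_cut]
          exact ⟨le_max_left _ _, hy⟩
        · intro z hz z' hz' hzz
          rw [Finset.coe_singleton, Set.mem_singleton_iff] at hz hz'
          omega
        · exact L_Cv hL0 x ⟨b, hb, hbx⟩ ⟨b', hb', hxb'⟩
        · intro hc
          have := L_Cv hL1 x' ⟨e, he, hex⟩ ⟨e', he', hxe'⟩
          exact absurd (sub_disj hT (ε := false) (ε' := true) hc this) (by decide)
      · left
        push Not at h1
        refine ⟨r, .right (.here (.refl r)), hk.2, D1, hD1', hL1, ?_⟩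
        rintro x hx ⟨h2, b, hb, hxb⟩
        exact absurd hxb (not_le.mpr (h1 x hx h2 b hb))
    · left
      push Not at h0
      refine ⟨l, .left (.here (.refl l)), hk.1, D0, hD0', hL0, ?_⟩
      rintro x hx ⟨h2, b, hb, hxb⟩
      exact absurd hxb (not_le.mpr (h0 x hx h2 b hb))
  | succ k =>
    by_contra hcon
    unfold M7' at hcon
    push Not at hcon
    choose X hk hbadA hbadB using hcon
    rw [show k + 1 + h + 1 = k + h + 2 by omega] at hk
    obtain ⟨B, hBS, l', r', hE, hp, ⟨Z', hZ', hLL, hBt⟩, ⟨x, hx, ⟨a, ha, hax⟩, hxB⟩,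
      x', hx', ⟨a', ha', hax'⟩, hxB'⟩ := hZ.split hT k h n (limS X) (hk 0) (by
        intro v hv hpv D hD hLD
        by_contra hno
        have e1 : ∀ᶠ t in (UU : Filter ℕ), ∀ x ∈ Finset.range (D.sup id + 1),
            (x ∈ X t ↔ x ∈ limS X) :=
          (Filter.eventually_all_finset _).mpr fun x _ => limS_spec X x
        obtain ⟨t, ht, ht1⟩ := (e1.and (ev_ge (D.sup id))).exists
        obtain ⟨x, hxX, ⟨a, ha, hax⟩, b, hb, hxb⟩ := hbadA t v hv hpv D (subset_cut hD ht1) hLD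
        have hxs : x ≤ D.sup id := hxb.trans (Finset.le_sup (f := id) hb)
        exact hno ⟨x, (ht x (Finset.mem_range.mpr (by omega))).mp hxX, ⟨a, ha, hax⟩, b, hb, hxb⟩)
    obtain ⟨t1, ht1⟩ := IH _ _ _ _ (hE.wf hT) hLL
    set F0 := cut Z' t1 with hF0
    obtain ⟨b, hb, hbx⟩ := hZ.exists_gt (max x x')
    let M := max b t1
    have e1 : ∀ᶠ t in (UU : Filter ℕ), ∀ x ∈ Finset.range (M + 1), (x ∈ X t ↔ x ∈ limS X) :=
      (Filter.eventually_all_finset _).mpr fun x _ => limS_spec X x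
    obtain ⟨t, ht, htM⟩ := (e1.and (ev_ge M)).exists
    have hbM : b ≤ M := le_max_left _ _
    have htM1 : t1 ≤ M := le_max_right _ _
    have hxb1 : x < b := lt_of_le_of_lt (le_max_left _ _) hbx
    have hxb2 : x' < b := lt_of_le_of_lt (le_max_right _ _) hbx
    have hcutb : b ∈ cut Z t := mem_cut.mpr ⟨by omega, hb⟩
    have hsub : F0 ⊆ cut Z t := cut_mono hZ' (by omega)
    refine absurd (hbadB t B (.node S l' r') hE hp hBS F0 hsub ht1 ?_ ?_ x' ?_ ⟨⟨a', ?_, hax'⟩,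
      b, hcutb, hxb2.le⟩) hxB'
    · intro y hy y' hy' hyy'
      have hy1 := mem_cut.mp hy
      have hy1' := mem_cut.mp hy'
      obtain ⟨⟨w, hw, hw1, hw2, hw3⟩, w', hw', hw1', hw2', hw3'⟩ := hBt y hy1.2 y' hy1'.2 hyy'
      exact ⟨⟨w, (ht w (Finset.mem_range.mpr (by omega))).mpr hw, hw1, hw2, hw3⟩,
        w', (ht w' (Finset.mem_range.mpr (by omega))).mpr hw', hw1', hw2', hw3'⟩
    · exact ⟨x, (ht x (Finset.mem_range.mpr (by omega))).mpr hx,
        ⟨⟨a, mem_cut.mpr ⟨by omega, ha⟩, hax⟩, b, hcutb, hxb1.le⟩, hxB⟩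
    · exact (ht x' (Finset.mem_range.mpr (by omega))).mpr hx'
    · exact mem_cut.mpr ⟨by omega, ha'⟩

theorem M7'.mono {G : CT → Finset ℕ → Prop} {T : CT} {Y Y' : Finset ℕ} {k h : ℕ}
    (h7 : M7' col G T Y k h) (hs : Y ⊆ Y') : M7' col G T Y' k h := by
  intro X hk
  rcases h7 X hk with ⟨v, e1, e2, E, hE, hL⟩ | ⟨B, T', e1, e2, e3, E, hE, hL, hB,
      ⟨x, hx, ⟨⟨a, ha, hax⟩, b, hb, hxb⟩, hxB⟩, x', hx', ⟨⟨a', ha', hax'⟩, b', hb', hxb'⟩, hxB'⟩
  · exact Or.inl ⟨v, e1, e2, E, hE.trans hs, hL⟩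
  · exact Or.inr ⟨B, T', e1, e2, e3, E, hE.trans hs, hL, hB,
      ⟨x, hx, ⟨⟨a, hs ha, hax⟩, b, hs hb, hxb⟩, hxB⟩,
      x', hx', ⟨⟨a', hs ha', hax'⟩, b', hs hb', hxb'⟩, hxB'⟩

theorem comp_M7 (IH : IHn col n) (hT : (CT.node S l r).WF) (hZ : LL col S l r Z) :
    ∃ t, M7 col (L col n) (.node S l r) (cut Z t) := by
  classical
  obtain ⟨t, ht⟩ := bound_fin ({k : ℕ | k ≤ ht (.node S l r)} ×ˢ {k : ℕ | k ≤ ht (.node S l r)})
    ((Set.finite_Iic _).prod (Set.finite_Iic _))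
    (fun p t => M7' col (L col n) (.node S l r) (cut Z t) p.1 p.2)
    (fun p t t' htt h => h.mono (cut_mono subset_rfl htt))
    (fun p _ => comp_M7k IH hT hZ p.1 p.2)
  refine ⟨t, fun k h X hk => ?_⟩
  have h1 := perf_le hk
  have h2 : k ≤ CR.ht (.node S l r) := by omega
  have h3 : h ≤ CR.ht (.node S l r) := by omega
  exact ht (k, h) ⟨h2, h3⟩ X hk

/-- compactness -/
theorem LL.game (n : ℕ) : IHn col n := by
  induction n with
  | zero =>
    intro S l r Z _ hZ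
    obtain ⟨x0, hx0, _⟩ := hZ.exists_gt 0
    exact ⟨x0, ⟨x0, mem_cut.mpr ⟨le_rfl, hx0⟩⟩, hZ.cv x0⟩
  | succ n IH =>
    intro S l r Z hT hZ
    obtain ⟨t0, e0⟩ := IH _ _ _ _ hT hZ
    obtain ⟨t1, e1⟩ := comp_M1 hZ n
    obtain ⟨t3, e3⟩ := comp_M3 IH hT hZ
    obtain ⟨t4, e4⟩ := comp_M4 IH hT hZ
    obtain ⟨t6, e6⟩ := comp_M6 IH hT hZ
    obtain ⟨t7, e7⟩ := comp_Mt IH hT hZ
    obtain ⟨t8, e8⟩ := comp_Mc IH hT hZ
    obtain ⟨t9, e9⟩ := comp_M7 IH hT hZ
    let t := t0 + t1 + t3 + t4 + t6 + t7 + t8 + t9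
    have hs : ∀ {i}, i ≤ t → cut Z i ⊆ cut Z t := fun h => cut_mono subset_rfl h
    refine ⟨t, L_mono e0 (hs (by omega)) (hZ.cv t), ?_, ?_, ?_, ?_, ?_, ?_, ?_⟩
    · intro ε
      obtain ⟨D, h1, h2⟩ := e1 ε
      exact ⟨D, h1.trans (hs (by omega)), h2⟩
    · intro H hH
      obtain ⟨E, hE, hL⟩ := e3 H (fun y hy => hH y (hs (by omega) hy))
      exact ⟨E, hE.trans (hs (by omega)), hL⟩
    · obtain ⟨x, hx, E, hE, hL⟩ := e4
      exact ⟨x, hs (by omega) hx, E, hE.trans (hs (by omega)), hL⟩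
    · intro K f hK hf
      obtain ⟨E, hE, hL⟩ := e6 K f (fun y hy => hK y (hs (by omega) hy)) hf
      exact ⟨E, hE.trans (hs (by omega)), hL⟩
    · intro T' hT'
      obtain ⟨E, hE, hL⟩ := e7 T' hT'
      exact ⟨E, hE.trans (hs (by omega)), hL⟩
    · intro k c hk
      obtain ⟨T', f1, f2, E, hE, hL⟩ := e8 k c hk
      exact ⟨T', f1, f2, E, hE.trans (hs (by omega)), hL⟩
    · intro k h X hk
      exact M7'.mono (fun X hk => e9 k h X hk) (hs (by omega)) X hk

end Pool.Agent.Helper617.CR
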