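import Mathlib
import Pool.Agent.Helper617.RM.Defs
import Pool.Agent.Helper617.RM.Orders

/-!
Cohesive Ramsey's theorem for pairs and the cohesiveness principle in a structure for
second-order arithmetic.
-/

namespace Pool.Agent.Helper617.CR

open Pool.Agent.Helper617.RM

universe u

variable (N : L2Structure.{u})

/-- The colouring `c` of two-element subsets (used only for arguments `x < y`) exists in the
structure: the set of codes of the pairs of colour `1` is one of its sets. -/
def ColIn (c : N.M → N.M → Fin 2) : Prop :=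
  {p | ∃ x y, N.lt x y ∧ c x y = 1 ∧ p = N.pair x y} ∈ N.Sets

/-- Cohesive Ramsey's theorem for pairs and two colours: every colouring of pairs has an infinite
set `X` such that for each `x` in `X` the colour of `{x, y}` is the same for all sufficiently
large `y` in `X`. -/
def CRT22 : Prop :=
  ∀ c : N.M → N.M → Fin 2, ColIn N c → ∃ X ∈ N.Sets, ¬ IsFin N X ∧
    ∀ x ∈ X, ∃ (i : Fin 2) (b : N.M), ∀ y ∈ X, N.lt x y → N.lt b y → c x y = i

/-- The cohesiveness principle: for every sequence of sets `R_i = {x | (i, x) ∈ R}` there is an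
infinite set `C` such that for each `i` one of `C ∩ R_i` and `C \ R_i` is finite. -/
def COH : Prop :=
  ∀ R ∈ N.Sets, ∃ C ∈ N.Sets, ¬ IsFin N C ∧
    ∀ i, IsFin N {x | x ∈ C ∧ N.pair i x ∈ R} ∨ IsFin N {x | x ∈ C ∧ N.pair i x ∉ R}

end Pool.Agent.Helper617.CR
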