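import Pool.Agent.Helper617.CR.Mod4
import Pool.Agent.Helper617.CR.Defs

/-!
Cohesive Ramsey's theorem for pairs holds and the cohesiveness principle fails in the structure.
-/

namespace Pool.Agent.Helper617.CR

open Filter CT Pool.Agent.Helper617.RM

theorem rp_pair (x y : PP.M) : Ev fun t => rp (PP.pair x y) t = prn (rp x t) (rp y t) := by
  unfold L2Structure.pair
  refine ((rv_add (PP.mul (PP.add x y) (PP.add x y)) x).and
    (rv_mul (PP.add x y) (PP.add x y))).mono2 (rv_add x y) fun t h1 h2 => ?_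
  rw [h1.1, h1.2, h2]; rfl

theorem pair_inj {x y x' y' : PP.M} (h : PP.pair x y = PP.pair x' y') : x = x' ∧ y = y' := by
  rw [pp_ext] at h
  have key : Ev fun t => rp x t = rp x' t ∧ rp y t = rp y' t :=
    h.mono3 (rp_pair x y) (rp_pair x' y') fun t h1 h2 h3 => by
      rw [h2, h3] at h1
      exact prn_inj h1
  exact ⟨pp_ext.mpr (key.mono fun _ h => h.1), pp_ext.mpr (key.mono fun _ h => h.2)⟩

/-- the internal sets of the stages are infinite in the structure -/
theorem stage_infinite (k : ℕ) (b : PP.M) : ∃ a : PP.M, ¬ PP.lt a b ∧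
    Ev fun t => rp a t ∈ (st k t).1 := by
  obtain ⟨m, hm⟩ := rc_bdd b
  obtain ⟨j, hj, hadv⟩ := adv (max m k)
  obtain ⟨a, ha⟩ := wit (uC (j + 1)) (cMem .var (.clo (yC j))) (bdd_uC _)
    ((Ev.ge (j + 1)).mono fun t ht => by
      obtain ⟨x, hx, hx'⟩ := (hadv t ht).2
      refine ⟨x, by rw [E_uC]; exact hx', ?_⟩
      rw [tr_cMem, ev_clo, E_yC]
      exact hx)
  have hmem : Ev fun t => rp a t ∈ (st j t).1 := ha.mono fun t ht => by
    have := ht.2.1
    rw [tr_cMem, ev_clo, E_yC] at this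
    exact this
  refine ⟨a, ?_, ?_⟩
  · intro hlt
    rw [pp_lt'] at hlt
    refine ((hlt.and hmem).mono3 (bdd_le ((le_max_left m k).trans hj) hm) (Ev.ge j) ?_).false
    intro t h1 h2 h3
    have h4 := st_lb h3 _ h1.2
    have h5 : rp b t < (st j t).2.2 := h2
    omega
  · exact hmem.mono2 (Ev.ge j) fun t h1 h2 => (st_le ((le_max_right m k).trans hj) h2).1 h1

/-- numbers beyond the bound of a later stage are in the hull of a stage -/
theorem in_hull {k j : ℕ} (hj : k ≤ j)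
    (hadv : ∀ t, j + 1 ≤ t → ∃ x ∈ (st j t).1, x < (st (j + 1) t).2.2) (y : PP.M) :
    Ev fun t => ∀ z, (st (j + 1) t).2.2 ≤ z → z ≤ rp y t →
      (∃ a ∈ (st k t).1, a ≤ z) ∧ (∃ b ∈ (st k t).1, z ≤ b) := by
  obtain ⟨m, hm⟩ := rc_bdd y
  have hm' : Ev fun t => rp y t < (st (max m k) t).2.2 := bdd_le (le_max_left _ _) hm
  refine hm'.mono3 (Ev.ge (j + 1)) (Ev.ge (max m k)) fun t h1 h2 h3 z hz1 hz2 => ?_
  obtain ⟨x, hx, hx'⟩ := hadv t h2
  obtain ⟨b, hb⟩ := st_ne h3
  have hb' := st_lb h3 b hb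
  exact ⟨⟨x, (st_le hj (by omega)).1 hx, by omega⟩,
    b, (st_le (le_max_right m k) h3).1 hb, by omega⟩

/-- every colour is removed -/
theorem removed (x : PP.M) (k0 : ℕ) : ∃ k, k0 ≤ k ∧ ∃ b : PP.M, ∀ y : PP.M,
    Ev fun t => ∀ z, rp b t ≤ z → z ≤ rp y t → cl t (rp x t) ∉ (st k t).2.1.rng ∧
      cl t z ∈ (st k t).2.1.rng := by
  obtain ⟨k, hk, hreq⟩ := req_inf (0, .op 12 (.pair .idx (rc x))) k0
  obtain ⟨j, hj, hadv⟩ := adv (k + 1)
  refine ⟨k + 1, by omega, mkp (uC (j + 1)) (bdd_uC _), fun y => ?_⟩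
  refine (in_hull hj (fun t ht => (hadv t ht).2) y).mono3 (rp_mkp (uC (j + 1)) (bdd_uC _))
    (Ev.ge (k + 1)) fun t h1 h2 h3 z hz1 hz2 => ?_
  rw [h2, E_uC] at hz1
  refine ⟨?_, L_Cv (inv_st (k + 1) t h3).1 z (h1 z hz1 hz2).1 (h1 z hz1 hz2).2⟩
  rw [st_succ, hreq]
  have e : E (.op 12 (.pair .idx (rc x))) t = cl t (rp x t) := by
    show ev _ _ _ = _
    simp [ev, opf]
    rfl
  have := (stepColor_spec (inv_st' h3) (E (.op 12 (.pair .idx (rc x))) t)).2.2.2.2
  rw [e] at this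
  show cl t (rp x t) ∉ (stepColor t (t - (k + 1)) (st k t)
    (E (.op 12 (.pair .idx (rc x))) t)).2.1.rng
  rw [e]
  exact this

theorem lt_trans' {x y z : PP.M} (h1 : PP.lt x y) (h2 : PP.lt y z) : PP.lt x z :=
  Ev.mono2 h1 h2 fun _ h3 h4 => lt_trans h3 h4

/-- cohesive Ramsey's theorem for pairs -/
theorem crt : CRT22 PP := by
  intro c hc
  obtain ⟨K, hK⟩ := hc
  obtain ⟨k, _, hreq⟩ := req_inf (1, K) 0
  have hst : ∀ t, k + 1 ≤ t → Star (cl t) (cOf (E K t)) (st (k + 1) t).2.1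
      ((st (k + 1) t).1 : Set ℕ) := by
    intro t ht
    rw [st_succ, hreq]
    exact (stepPair_spec (inv_st' ht) (E K t)).2.2.2.2
  have hcol : ∀ x y, PP.lt x y → (c x y = 1 ↔
      Ev fun t => cOf (E K t) (rp x t) (rp y t) = true) := by
    intro x y hxy
    constructor
    · intro h
      have h2 : PP.pair x y ∈ {p | ∃ x y, PP.lt x y ∧ c x y = 1 ∧ p = PP.pair x y} :=
        ⟨x, y, hxy, h, rfl⟩
      refine ((hK _).mp h2).mono2 (rp_pair x y) fun t h3 h4 => ?_
      unfold cOf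
      rw [decide_eq_true_iff, ← h4]
      exact h3
    · intro h
      have h2 : PP.pair x y ∈ {p | ∃ x y, PP.lt x y ∧ c x y = 1 ∧ p = PP.pair x y} := by
        refine (hK _).mpr (h.mono2 (rp_pair x y) fun t h3 h4 => ?_)
        unfold cOf at h3
        rw [decide_eq_true_iff] at h3
        show rp _ t ∈ _
        rw [h4]
        exact h3
      obtain ⟨x', y', _, h4, h5⟩ := h2
      obtain ⟨e1, e2⟩ := pair_inj h5
      rw [e1, e2]; exact h4
  refine ⟨{x | Ev fun t => rp x t ∈ (st (k + 1) t).1}, ⟨yC (k + 1), fun x => ?_⟩, ?_, ?_⟩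
  · refine Ev.congr (Ev.of fun t => ?_)
    rw [E_yC]
    exact Iff.rfl
  · rintro ⟨b, hb⟩
    obtain ⟨a, ha1, ha2⟩ := stage_infinite (k + 1) b
    exact ha1 (hb a ha2)
  · intro x hx
    obtain ⟨k2, hk2, b, hb⟩ := removed x (k + 1)
    -- the colour is constant beyond `b`
    have key : ∀ y1 y2 : PP.M, (Ev fun t => rp y1 t ∈ (st (k + 1) t).1) →
        (Ev fun t => rp y2 t ∈ (st (k + 1) t).1) → PP.lt x y1 → PP.lt b y1 → PP.lt y1 y2 →
          c x y1 = c x y2 := by
      intro y1 y2 hy1 hy2 h1 h2 h3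
      have h4 := lt_trans' h1 h3
      have e : (Ev fun t => cOf (E K t) (rp x t) (rp y1 t) = true) ↔
          Ev fun t => cOf (E K t) (rp x t) (rp y2 t) = true := by
        rw [pp_lt'] at h1 h2 h3
        refine Ev.congr ?_
        refine (((Ev.and hx hy1).and hy2).and ((h1.and h2).and h3)).mono3 (hb y2)
          (Ev.ge k2) ?_
        rintro t ⟨⟨⟨e1, e2⟩, e3⟩, ⟨e4, e5⟩, e6⟩ e7 e8
        have h9 := hst t (by omega) (st k2 t).2.1.rng (st_emb hk2 e8).rng_mem (rp x t) e1 (rp y1 t)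
          e2 (rp y2 t) e3 e4 e6 (e7 (rp y1 t) e5.le e6.le).1
          (fun z hz1 hz2 => (e7 z (by omega) hz2).2)
        rw [h9]
      have e' : c x y1 = 1 ↔ c x y2 = 1 := by
        rw [hcol x y1 h1, hcol x y2 h4]
        exact e
      have h5 : ∀ a b : Fin 2, (a = 1 ↔ b = 1) → a = b := by decide
      exact h5 _ _ e'
    obtain ⟨y0, hy01, hy02⟩ := stage_infinite (k + 1) (PP.add (PP.add b x) PP.one)
    have hy0 : Ev fun t => rp b t < rp y0 t ∧ rp x t < rp y0 t := by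
      have h1 : Ev fun t => ¬ rp y0 t < rp (PP.add (PP.add b x) PP.one) t := by
        rw [Ev.not]; exact hy01
      refine (h1.and rv_one).mono3 (rv_add (PP.add b x) PP.one) (rv_add b x)
        fun t h2 h3 h4 => ?_
      have h5 := h2.1
      rw [h3, h4, h2.2] at h5
      omega
    have hby0 : PP.lt b y0 := hy0.mono fun _ h => h.1
    have hxy0 : PP.lt x y0 := hy0.mono fun _ h => h.2
    refine ⟨c x y0, b, ?_⟩
    intro y hy hxy hby
    have htri : PP.lt y y0 ∨ y = y0 ∨ PP.lt y0 y := by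
      rw [pp_ext, pp_lt', pp_lt', ← Ev.or_iff, ← Ev.or_iff]
      exact Ev.of fun t => lt_trichotomy _ _
    rcases htri with h | h | h
    · exact key y y0 hy hy02 hxy hby h
    · rw [h]
    · exact (key y0 y hy02 hy hxy0 hby0 h).symm

/-! ### failure of cohesiveness -/

/-- code of the sequence of sets -/
def RC : Cd := .setc topC (cEx (cAdd .var (.nat 1)) (cEx (cAdd (.lift .var) (.nat 1))
  (cAnd (cEq (.lift (.lift .var)) (cPr (.lift .var) .var))
    (cMem (.op 12 (.pair .idx .var)) (.lift .var)))))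

theorem mem_RC (t p : ℕ) : p ∈ dec (E RC t) ↔ p < TT t + 1 ∧ ∃ i < p + 1, ∃ y < p + 1,
    p = prn i y ∧ cl t y ∈ dec i := by
  unfold E RC
  rw [mem_setc, ev_topC, tr_cEx]
  have : ∀ x w, ev (.op 12 (.pair .idx .var)) t (consN x w) = cl t x := by
    intro x w
    simp [ev, opf, consN]
  simp only [tr_cEx, tr_cAnd, tr_cEq, tr_cMem, ev_cAdd, ev_var, ev_nat, ev_lift, consN_zero,
    consN_succ, ev_cPr, this]

/-- the sequence of sets -/
noncomputable def RS : Set PP.M := {x | Ev fun t => rp x t ∈ dec (E RC t)}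

theorem RS_mem : RS ∈ PP.Sets := ⟨RC, fun _ => Iff.rfl⟩

theorem mem_RS (i y : PP.M) : PP.pair i y ∈ RS ↔ Ev fun t => cl t (rp y t) ∈ dec (rp i t) := by
  constructor
  · intro h
    have h' : Ev fun t => rp (PP.pair i y) t ∈ dec (E RC t) := h
    refine h'.mono2 (rp_pair i y) fun t h1 h2 => ?_
    rw [mem_RC] at h1
    obtain ⟨_, i', _, y', _, hx, hc⟩ := h1
    rw [h2] at hx
    obtain ⟨e1, e2⟩ := prn_inj hx
    rw [e1, e2]; exact hc
  · intro h
    show Ev fun t => rp (PP.pair i y) t ∈ dec (E RC t)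
    refine h.mono3 (rp_pair i y) (rp_top (PP.pair i y)) fun t h1 h2 h3 => ?_
    rw [mem_RC]
    refine ⟨by omega, rp i t, ?_, rp y t, ?_, h2, h1⟩
    · rw [h2]
      unfold prn
      nlinarith [Nat.zero_le ((rp i t + rp y t) * (rp i t + rp y t))]
    · rw [h2]
      unfold prn
      nlinarith [Nat.zero_le ((rp i t + rp y t) * (rp i t + rp y t))]

theorem bdd_MB {c : Cd} (h : ∀ t, E c t ≤ MB t) : Bdd c := ⟨0, Ev.of fun t => by
  rw [st_zero]
  show _ < MB t + 1
  have := h t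
  omega⟩

theorem not_lt' (x y : PP.M) : ¬ PP.lt x y ↔ Ev fun t => rp y t ≤ rp x t := by
  rw [pp_lt', ← Ev.not]
  exact Ev.congr (Ev.of fun t => not_lt)

theorem not_coh : ¬ COH PP := by
  intro h
  obtain ⟨C, ⟨K, hK⟩, hinf, hcoh⟩ := h RS RS_mem
  obtain ⟨k, _, hreq⟩ := req_inf (3, K) 0
  have hsp : Ev fun t => (∀ x ∈ dec (E K t), ¬ ((∃ a ∈ (st (k + 1) t).1, a ≤ x) ∧
        (∃ b ∈ (st (k + 1) t).1, x ≤ b))) ∨
        ∃ B ⊆ Finset.range (NC t), Btw (cl t) (dec (E K t) : Set ℕ) B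
          ((st (k + 1) t).1 : Set ℕ) := by
    refine (Ev.ge (k + 1)).mono fun t ht => ?_
    rw [st_succ, hreq]
    exact (stepSplit_spec (inv_st' ht) (E K t)).2.2.2.2
  rw [Ev.or_iff] at hsp
  rcases hsp with hA | hB
  · -- the set is bounded
    obtain ⟨j, hj, hadv⟩ := adv (k + 1)
    apply hinf
    refine ⟨mkp (uC (j + 1)) (bdd_uC _), fun x hx => ?_⟩
    by_contra hcon
    rw [not_lt'] at hcon
    have hxK := (hK x).mp hx
    refine ((hcon.and (rp_mkp (uC (j + 1)) (bdd_uC _))).mono3 (hxK.and hA)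
      (in_hull hj (fun t ht => (hadv t ht).2) x) ?_).false
    rintro t ⟨h1, h2⟩ ⟨h3, h4⟩ h5
    rw [h2, E_uC] at h1
    exact h4 _ h3 (h5 _ h1 le_rfl)
  · -- the set is split
    let ic : Cd := .op 14 (.pair .idx (.pair (yC (k + 1)) K))
    have hic : ∀ t, E ic t = witB t (E (yC (k + 1)) t) (E K t) := by
      intro t
      show ev _ _ _ = _
      simp [ic, ev, opf]
      rfl
    have hib : Bdd ic := bdd_MB fun t => by rw [hic]; exact witB_le _ _ _
    let i : PP.M := mkp ic hib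
    have hi : Ev fun t => Btw (cl t) (dec (E K t) : Set ℕ) (dec (rp i t))
        ((st (k + 1) t).1 : Set ℕ) := by
      refine (rp_mkp ic hib).mono2 hB fun t h1 h2 => ?_
      show Btw _ _ (dec (rp (mkp ic hib) t)) _
      rw [h1, hic]
      have h3 := witB_spec (t := t) (D := E (yC (k + 1)) t) (K := E K t) (by
        rw [E_yC]; exact h2)
      rw [E_yC] at h3
      exact h3
    -- elements beyond `b`
    have key : ∀ b : PP.M, (∃ z ∈ C, ¬ PP.lt z b ∧ PP.pair i z ∈ RS) ∧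
        ∃ z ∈ C, ¬ PP.lt z b ∧ PP.pair i z ∉ RS := by
      intro b
      obtain ⟨y1, hy1, hy1'⟩ := stage_infinite (k + 1) b
      obtain ⟨y2, hy2, hy2'⟩ := stage_infinite (k + 1) (PP.add y1 PP.one)
      rw [not_lt'] at hy1 hy2
      have h12 : Ev fun t => rp y1 t < rp y2 t :=
        hy2.mono3 (rv_add y1 PP.one) rv_one fun t h1 h2 h3 => by
          rw [h2, h3] at h1; omega
      have hbt := (hy1'.and hy2').mono3 h12 hi fun t h1 h2 h3 =>
        h3 (rp y1 t) h1.1 (rp y2 t) h1.2 h2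
      have ecl : ∀ t x, ev (.op 12 (.pair .idx .var)) t (consN x fun _ => 0) = cl t x := by
        intro t x
        simp [ev, opf, consN]
      have ebd : ∀ t, E (cAdd (rc y2) (.nat 1)) t = rp y2 t + 1 := by
        intro t
        show ev _ _ _ = _
        rw [ev_cAdd]; rfl
      have hbd : Bdd (cAdd (rc y2) (.nat 1)) := bdd_add (rc_bdd y2) (bdd_nat 1)
      constructor
      · obtain ⟨z, hz⟩ := wit (cAdd (rc y2) (.nat 1))
          (cAnd (cLt (.clo (rc y1)) (cAdd .var (.nat 1)))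
            (cAnd (cMem .var (.clo K)) (cMem (.op 12 (.pair .idx .var)) (.clo (rc i))))) hbd
          (hbt.mono fun t ht => by
            obtain ⟨x, hx, hx1, hx2, hx3⟩ := ht.1
            refine ⟨x, by rw [ebd]; omega, ?_⟩
            rw [tr_cAnd, tr_cAnd, tr_cLt, tr_cMem, tr_cMem, ecl, ev_cAdd, ev_clo, ev_clo, ev_clo,
              ev_var, ev_nat, consN_zero, E_rc, E_rc]
            exact ⟨by omega, hx, hx3⟩)
        have hz' : Ev fun t => rp y1 t ≤ rp z t ∧ rp z t ∈ dec (E K t) ∧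
            cl t (rp z t) ∈ dec (rp i t) := hz.mono fun t ht => by
          have := ht.2.1
          rw [tr_cAnd, tr_cAnd, tr_cLt, tr_cMem, tr_cMem, ecl, ev_cAdd, ev_clo, ev_clo, ev_clo,
              ev_var, ev_nat, consN_zero, E_rc, E_rc] at this
          exact ⟨by omega, this.2⟩
        refine ⟨z, (hK z).mpr (hz'.mono fun t h => h.2.1), ?_, ?_⟩
        · rw [not_lt']
          exact hz'.mono2 hy1 fun t h1 h2 => h2.trans h1.1
        · rw [mem_RS]
          exact hz'.mono fun t h => h.2.2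
      · obtain ⟨z, hz⟩ := wit (cAdd (rc y2) (.nat 1))
          (cAnd (cLt (.clo (rc y1)) (cAdd .var (.nat 1)))
            (cAnd (cMem .var (.clo K))
              (cNot (cMem (.op 12 (.pair .idx .var)) (.clo (rc i)))))) hbd
          (hbt.mono fun t ht => by
            obtain ⟨x, hx, hx1, hx2, hx3⟩ := ht.2
            refine ⟨x, by rw [ebd]; omega, ?_⟩
            rw [tr_cAnd, tr_cAnd, tr_cLt, tr_cMem, tr_cNot, tr_cMem, ecl, ev_cAdd, ev_clo, ev_clo,
              ev_clo, ev_var, ev_nat, consN_zero, E_rc, E_rc]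
            exact ⟨by omega, hx, hx3⟩)
        have hz' : Ev fun t => rp y1 t ≤ rp z t ∧ rp z t ∈ dec (E K t) ∧
            ¬ cl t (rp z t) ∈ dec (rp i t) := hz.mono fun t ht => by
          have := ht.2.1
          rw [tr_cAnd, tr_cAnd, tr_cLt, tr_cMem, tr_cNot, tr_cMem, ecl, ev_cAdd, ev_clo, ev_clo,
              ev_clo, ev_var, ev_nat, consN_zero, E_rc, E_rc] at this
          exact ⟨by omega, this.2⟩
        refine ⟨z, (hK z).mpr (hz'.mono fun t h => h.2.1), ?_, ?_⟩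
        · rw [not_lt']
          exact hz'.mono2 hy1 fun t h1 h2 => h2.trans h1.1
        · rw [mem_RS, ← Ev.not]
          exact hz'.mono fun t h => h.2.2
    rcases hcoh i with ⟨b, hb⟩ | ⟨b, hb⟩
    · obtain ⟨z, hzC, hz1, hz2⟩ := (key b).1
      exact hz1 (hb z ⟨hzC, hz2⟩)
    · obtain ⟨z, hzC, hz1, hz2⟩ := (key b).2
      exact hz1 (hb z ⟨hzC, hz2⟩)

end Pool.Agent.Helper617.CR
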