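import Mathlib

/-!
Finite trees of colours and a partition theorem for pairs of leaves.
-/

namespace Pool.Agent.Helper617.CR

/-- trees of colours: every vertex carries a finite set of colours, a leaf also one colour -/
inductive CT : Type
  | leaf (S : Finset ℕ) (a : ℕ) : CT
  | node (S : Finset ℕ) (l r : CT) : CT

namespace CT

/-- the set of colours at the root -/
def rng : CT → Finset ℕ
  | leaf S _ => S
  | node S _ _ => S

/-- the colours of the leaves -/
def lv : CT → Finset ℕ
  | leaf _ a => {a}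
  | node _ l r => l.lv ∪ r.lv

/-- well formed trees -/
def WF : CT → Prop
  | leaf S a => a ∈ S
  | node S l r => l.rng ⊆ S ∧ r.rng ⊆ S ∧ Disjoint l.rng r.rng ∧ l.WF ∧ r.WF

/-- the tree contains the full binary tree of height `k` at its root -/
def perf : ℕ → CT → Prop
  | 0, _ => True
  | _ + 1, leaf _ _ => False
  | k + 1, node _ l r => perf k l ∧ perf k r

/-- all sets of colours of the tree -/
def rgs : CT → Set (Finset ℕ)
  | leaf S _ => {S}
  | node S l r => insert S (l.rgs ∪ r.rgs)

theorem perf_mono : ∀ {k m : ℕ} {T : CT}, k ≤ m → perf m T → perf k T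
  | 0, _, _, _, _ => by simp [perf]
  | k + 1, 0, _, h, _ => by omega
  | k + 1, m + 1, leaf _ _, _, h => h
  | k + 1, m + 1, node _ l r, hk, h => ⟨perf_mono (by omega) h.1, perf_mono (by omega) h.2⟩

theorem lv_nonempty : ∀ T : CT, T.lv.Nonempty
  | leaf _ a => ⟨a, Finset.mem_singleton_self a⟩
  | node _ l _ => by
    obtain ⟨a, ha⟩ := lv_nonempty l
    exact ⟨a, Finset.mem_union_left _ ha⟩

theorem WF.lv_sub : ∀ {T : CT}, T.WF → T.lv ⊆ T.rng
  | leaf S a, h => by
    intro x hx
    have : x = a := Finset.mem_singleton.mp hx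
    rw [this]; exact h
  | node S l r, h => by
    intro x hx
    rcases Finset.mem_union.mp hx with hx | hx
    · exact h.1 (WF.lv_sub h.2.2.2.1 hx)
    · exact h.2.1 (WF.lv_sub h.2.2.2.2 hx)

theorem WF.rgs_sub : ∀ {T : CT}, T.WF → ∀ S ∈ T.rgs, S ⊆ T.rng
  | leaf S a, _ => by
    rintro S' rfl
    exact subset_rfl
  | node S l r, h => by
    rintro S' (rfl | h' | h')
    · exact subset_rfl
    · exact (WF.rgs_sub h.2.2.2.1 S' h').trans h.1
    · exact (WF.rgs_sub h.2.2.2.2 S' h').trans h.2.1

theorem rng_mem_rgs : ∀ T : CT, T.rng ∈ T.rgs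
  | leaf _ _ => rfl
  | node _ _ _ => Set.mem_insert _ _

end CT

open CT

/-- embeddings of trees; `true` means that the root goes to the root -/
inductive Emb : Bool → CT → CT → Prop
  | leaf {T : CT} {a : ℕ} (h : a ∈ T.lv) : Emb true (.leaf T.rng a) T
  | node {S : Finset ℕ} {l l' r r' : CT} (hl : Emb false l' l) (hr : Emb false r' r) :
      Emb true (.node S l' r') (.node S l r)
  | here {T' T : CT} (h : Emb true T' T) : Emb false T' T
  | left {S : Finset ℕ} {T' l r : CT} (h : Emb false T' l) : Emb false T' (.node S l r)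
  | right {S : Finset ℕ} {T' l r : CT} (h : Emb false T' r) : Emb false T' (.node S l r)

theorem Emb.refl : ∀ T : CT, Emb true T T
  | .leaf S a => by
    have : Emb true (.leaf (CT.leaf S a).rng a) (.leaf S a) := .leaf (Finset.mem_singleton_self a)
    exact this
  | .node _ l r => .node (.here (Emb.refl l)) (.here (Emb.refl r))

theorem Emb.weak {b : Bool} {T' T : CT} (h : Emb b T' T) : Emb false T' T := by
  cases b
  · exact h
  · exact .here h

theorem Emb.lv_sub {b : Bool} {T' T : CT} (h : Emb b T' T) : T'.lv ⊆ T.lv := by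
  induction h with
  | leaf h => intro x hx; rw [Finset.mem_singleton.mp hx]; exact h
  | node _ _ ihl ihr => exact Finset.union_subset_union ihl ihr
  | here _ ih => exact ih
  | left _ ih => exact ih.trans Finset.subset_union_left
  | right _ ih => exact ih.trans Finset.subset_union_right

theorem Emb.rng_mem {b : Bool} {T' T : CT} (h : Emb b T' T) : T'.rng ∈ T.rgs := by
  induction h with
  | leaf h => exact rng_mem_rgs _
  | node _ _ ihl ihr => exact rng_mem_rgs _
  | here _ ih => exact ih
  | left _ ih => exact Set.mem_insert_of_mem _ (Or.inl ih)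
  | right _ ih => exact Set.mem_insert_of_mem _ (Or.inr ih)

theorem Emb.rgs_sub {b : Bool} {T' T : CT} (h : Emb b T' T) : T'.rgs ⊆ T.rgs := by
  induction h with
  | leaf h => rintro S rfl; exact rng_mem_rgs _
  | node _ _ ihl ihr => exact Set.insert_subset_insert (Set.union_subset_union ihl ihr)
  | here _ ih => exact ih
  | left _ ih => exact ih.trans (Set.subset_union_left.trans (Set.subset_insert _ _))
  | right _ ih => exact ih.trans (Set.subset_union_right.trans (Set.subset_insert _ _))

theorem Emb.rng_eq {b : Bool} {T' T : CT} (h : Emb b T' T) (hb : b = true) : T'.rng = T.rng := by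
  cases h with
  | leaf h => rfl
  | node _ _ => rfl
  | here _ => exact absurd hb (by decide)
  | left _ => exact absurd hb (by decide)
  | right _ => exact absurd hb (by decide)

theorem Emb.root {T' T : CT} (h : Emb true T' T) : T'.rng = T.rng := h.rng_eq rfl

theorem Emb.rng_sub {b : Bool} {T' T : CT} (h : Emb b T' T) (hT : T.WF) : T'.rng ⊆ T.rng :=
  hT.rgs_sub _ h.rng_mem

theorem Emb.wf {b : Bool} {T' T : CT} (h : Emb b T' T) : T.WF → T'.WF := by
  induction h with
  | leaf h => exact fun hT => hT.lv_sub h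
  | node hl hr ihl ihr =>
    rintro ⟨h1, h2, h3, h4, h5⟩
    refine ⟨(hl.rng_sub h4).trans h1, (hr.rng_sub h5).trans h2, ?_, ihl h4, ihr h5⟩
    exact Finset.disjoint_of_subset_left (hl.rng_sub h4)
      (Finset.disjoint_of_subset_right (hr.rng_sub h5) h3)
  | here _ ih => exact ih
  | left _ ih => exact fun hT => ih hT.2.2.2.1
  | right _ ih => exact fun hT => ih hT.2.2.2.2

theorem Emb.trans {b : Bool} {T T' : CT} (h : Emb b T' T) : ∀ {b' : Bool} {T'' : CT},
    Emb b' T'' T' → Emb (b && b') T'' T := by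
  induction h with
  | @leaf T a h =>
    intro b' T'' h'
    have key : ∀ {b : Bool} {T'' T' : CT}, Emb b T'' T' → T' = .leaf T.rng a →
        T'' = .leaf T.rng a := by
      intro b T'' T' h
      induction h with
      | @leaf T0 a0 h0 =>
        intro e
        subst e
        have : a0 = a := Finset.mem_singleton.mp h0
        rw [this]; rfl
      | node _ _ _ _ => intro e; cases e
      | here _ ih => exact ih
      | left _ _ => intro e; cases e
      | right _ _ => intro e; cases e
    have e := key h' rfl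
    subst e
    have h2 : Emb true (.leaf T.rng a) T := .leaf h
    cases b'
    · exact .here h2
    · exact h2
  | @node S l l' r r' hl hr ihl ihr =>
    intro b' T'' h'
    have key : ∀ {b : Bool} {T'' T' : CT}, Emb b T'' T' → T' = .node S l' r' →
        Emb b T'' (.node S l r) := by
      intro b T'' T' h
      induction h with
      | @leaf T0 a0 h0 =>
        intro e
        subst e
        have h1 : a0 ∈ (CT.node S l r).lv :=
          Finset.union_subset_union hl.lv_sub hr.lv_sub h0
        exact Emb.leaf (T := .node S l r) h1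
      | @node S1 l1 l1' r1 r1' hl1 hr1 _ _ =>
        intro e
        injection e with e1 e2 e3
        subst e1 e2 e3
        exact .node (ihl hl1) (ihr hr1)
      | here _ ih => intro e; exact .here (ih e)
      | @left S1 T1 l1 r1 h1 _ =>
        intro e
        injection e with e1 e2 e3
        subst e1 e2 e3
        exact .left (ihl h1)
      | @right S1 T1 l1 r1 h1 _ =>
        intro e
        injection e with e1 e2 e3
        subst e1 e2 e3
        exact .right (ihr h1)
    have := key h' rfl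
    rwa [Bool.true_and]
  | here h ih =>
    intro b' T'' h'
    have := ih h'
    rw [Bool.false_and]
    exact this.weak
  | left h ih =>
    intro b' T'' h'
    rw [Bool.false_and]
    exact .left (ih h').weak
  | right h ih =>
    intro b' T'' h'
    rw [Bool.false_and]
    exact .right (ih h').weak

theorem Emb.trans_ff {T T' T'' : CT} (h : Emb false T' T) (h' : Emb false T'' T') :
    Emb false T'' T := h.trans h'

theorem Emb.trans_tt {T T' T'' : CT} (h : Emb true T' T) (h' : Emb true T'' T') :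
    Emb true T'' T := h.trans h'

theorem Emb.finite : ∀ T : CT, {T' | Emb false T' T}.Finite
  | .leaf S a => by
    refine (Set.finite_singleton (CT.leaf S a)).subset ?_
    intro T' h
    have key : ∀ {b : Bool} {T'' T' : CT}, Emb b T'' T' → T' = .leaf S a →
        T'' = .leaf S a := by
      intro b T'' T' h
      induction h with
      | @leaf T0 a0 h0 =>
        intro e
        subst e
        have : a0 = a := Finset.mem_singleton.mp h0
        rw [this]; rfl
      | node _ _ _ _ => intro e; cases e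
      | here _ ih => exact ih
      | left _ _ => intro e; cases e
      | right _ _ => intro e; cases e
    exact key h rfl
  | .node S l r => by
    have h1 := Emb.finite l
    have h2 := Emb.finite r
    have h3 : ((fun a => CT.leaf S a) '' ((CT.node S l r).lv : Set ℕ)).Finite :=
      ((CT.node S l r).lv.finite_toSet).image _
    have h4 : (Set.image2 (CT.node S) {T' | Emb false T' l} {T' | Emb false T' r}).Finite :=
      h1.image2 _ h2
    refine (((h1.union h2).union h3).union h4).subset ?_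
    intro T' h
    have key : ∀ {b : Bool} {T'' T' : CT}, Emb b T'' T' → T' = .node S l r →
        T'' ∈ (({T' | Emb false T' l} ∪ {T' | Emb false T' r}) ∪
          ((fun a => CT.leaf S a) '' ((CT.node S l r).lv : Set ℕ))) ∪
          Set.image2 (CT.node S) {T' | Emb false T' l} {T' | Emb false T' r} := by
      intro b T'' T' h
      induction h with
      | @leaf T0 a0 h0 =>
        intro e
        subst e
        exact Or.inl (Or.inr ⟨a0, h0, rfl⟩)
      | @node S1 l1 l1' r1 r1' hl1 hr1 _ _ =>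
        intro e
        injection e with e1 e2 e3
        subst e1 e2 e3
        exact Or.inr ⟨l1', hl1, r1', hr1, rfl⟩
      | here _ ih => exact ih
      | @left S1 T1 l1 r1 hh _ =>
        intro e
        injection e with e1 e2 e3
        subst e1 e2 e3
        exact Or.inl (Or.inl (Or.inl hh))
      | @right S1 T1 l1 r1 hh _ =>
        intro e
        injection e with e1 e2 e3
        subst e1 e2 e3
        exact Or.inl (Or.inl (Or.inr hh))
    exact key h rfl

/-! ### points -/

theorem tp (P : ℕ → Prop) : ∀ (k m : ℕ) (T : CT), perf (k + m) T →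
    (∃ T', Emb false T' T ∧ perf k T' ∧ ∀ a ∈ T'.lv, P a) ∨
      ∃ T', Emb false T' T ∧ perf m T' ∧ ∀ a ∈ T'.lv, ¬ P a
  | 0, m, T, h => by
    by_cases hP : ∃ a ∈ T.lv, P a
    · left
      obtain ⟨a, ha, hPa⟩ := hP
      refine ⟨_, .here (.leaf ha), trivial, ?_⟩
      intro b hb
      rw [Finset.mem_singleton.mp hb]; exact hPa
    · right
      push Not at hP
      exact ⟨T, .here (.refl T), perf_mono (by omega) h, hP⟩
  | k + 1, 0, T, h => by
    by_cases hP : ∃ a ∈ T.lv, ¬ P a
    · right
      obtain ⟨a, ha, hPa⟩ := hP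
      refine ⟨_, .here (.leaf ha), trivial, ?_⟩
      intro b hb
      rw [Finset.mem_singleton.mp hb]; exact hPa
    · left
      push Not at hP
      exact ⟨T, .here (.refl T), perf_mono (by omega) h, hP⟩
  | k + 1, m + 1, .leaf S a, h => by
    exfalso
    rw [show k + 1 + (m + 1) = (k + m + 1) + 1 by omega] at h
    exact h
  | k + 1, m + 1, .node S l r, h => by
    rw [show k + 1 + (m + 1) = (k + (m + 1)) + 1 by omega] at h
    rcases tp P k (m + 1) l h.1 with ⟨l', hl1, hl2, hl3⟩ | ⟨l', hl1, hl2, hl3⟩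
    · rcases tp P k (m + 1) r h.2 with ⟨r', hr1, hr2, hr3⟩ | ⟨r', hr1, hr2, hr3⟩
      · left
        refine ⟨.node S l' r', .here (.node hl1 hr1), ⟨hl2, hr2⟩, ?_⟩
        intro a ha
        rcases Finset.mem_union.mp ha with ha | ha
        · exact hl3 a ha
        · exact hr3 a ha
      · right
        exact ⟨r', .right hr1, hr2, hr3⟩
    · right
      exact ⟨l', .left hl1, hl2, hl3⟩

theorem tpK {α : Type} [DecidableEq α] (f : ℕ → α) (k : ℕ) : ∀ (K : ℕ) (C : Finset α) (T : CT),
    C.card ≤ K → perf (K * k) T → (∀ a ∈ T.lv, f a ∈ C) →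
      ∃ T', Emb false T' T ∧ perf k T' ∧ ∃ v, ∀ a ∈ T'.lv, f a = v
  | 0, C, T, hC, _, hf => by
    exfalso
    obtain ⟨a, ha⟩ := lv_nonempty T
    have := hf a ha
    rw [Finset.card_eq_zero.mp (Nat.le_zero.mp hC)] at this
    exact Finset.notMem_empty _ this
  | K + 1, C, T, hC, hT, hf => by
    obtain ⟨a, ha⟩ := lv_nonempty T
    rw [show (K + 1) * k = k + K * k by ring] at hT
    rcases tp (fun b => f b = f a) k (K * k) T hT with ⟨T', h1, h2, h3⟩ | ⟨T', h1, h2, h3⟩
    · exact ⟨T', h1, h2, f a, h3⟩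
    · obtain ⟨T'', h4, h5, h6⟩ := tpK f k K (C.erase (f a)) T' (by
        rw [Finset.card_erase_of_mem (hf a ha)]; omega) h2 (by
        intro b hb
        exact Finset.mem_erase.mpr ⟨h3 b hb, hf b (h1.lv_sub hb)⟩)
      exact ⟨T'', h1.trans_ff h4, h5, h6⟩

theorem trim : ∀ (k : ℕ) (T : CT), perf k T → ∃ T', Emb true T' T ∧ perf k T' ∧
    T'.lv.card ≤ 2 ^ k
  | 0, T, _ => by
    obtain ⟨a, ha⟩ := lv_nonempty T
    exact ⟨_, .leaf ha, trivial, by simp [CT.lv]⟩
  | k + 1, .leaf _ _, h => absurd h (by simp [perf])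
  | k + 1, .node S l r, h => by
    obtain ⟨l', h1, h2, h3⟩ := trim k l h.1
    obtain ⟨r', h4, h5, h6⟩ := trim k r h.2
    refine ⟨.node S l' r', .node (.here h1) (.here h4), ⟨h2, h5⟩, ?_⟩
    refine (Finset.card_union_le _ _).trans ?_
    rw [pow_succ]; omega

/-- constants -/
def m1 (k : ℕ) : ℕ := 2 ^ (2 ^ k) * k
def N1 (k : ℕ) : ℕ := m1 k + 2 ^ (2 ^ (m1 k)) * k

theorem cross (Φ : ℕ → ℕ → Bool) (k : ℕ) (T0 T1 : CT) (h0 : perf (N1 k) T0)
    (h1 : perf (N1 k) T1) : ∃ T0' T1', Emb false T0' T0 ∧ Emb false T1' T1 ∧ perf k T0' ∧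
      perf k T1' ∧ (∀ a ∈ T0'.lv, ∀ b ∈ T1'.lv, ∀ b' ∈ T1'.lv, Φ a b = Φ a b') ∧
      ∀ b ∈ T1'.lv, ∀ a ∈ T0'.lv, ∀ a' ∈ T0'.lv, Φ b a = Φ b a' := by
  obtain ⟨A, hA1, hA2, hA3⟩ := trim (m1 k) T0 (perf_mono (by unfold N1; omega) h0)
  obtain ⟨B, hB1, hB2, w, hB3⟩ := tpK (fun b => A.lv.filter (fun a => Φ a b = true)) k
    (2 ^ (2 ^ (m1 k))) A.lv.powerset T1 (by
      rw [Finset.card_powerset]
      exact Nat.pow_le_pow_right (by norm_num) hA3)
    (perf_mono (by unfold N1; omega) h1)
    (fun b _ => Finset.mem_powerset.mpr (Finset.filter_subset _ _))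
  obtain ⟨B', hB'1, hB'2, hB'3⟩ := trim k B hB2
  obtain ⟨A', hA'1, hA'2, w', hA'3⟩ := tpK (fun a => B'.lv.filter (fun b => Φ b a = true)) k
    (2 ^ (2 ^ k)) B'.lv.powerset A (by
      rw [Finset.card_powerset]
      exact Nat.pow_le_pow_right (by norm_num) hB'3) hA2
    (fun b _ => Finset.mem_powerset.mpr (Finset.filter_subset _ _))
  refine ⟨A', B', hA1.weak.trans_ff hA'1, hB1.trans_ff hB'1.weak, hA'2, hB'2, ?_, ?_⟩
  · intro a ha b hb b' hb'
    have e1 := hB3 b (hB'1.lv_sub hb)
    have e2 := hB3 b' (hB'1.lv_sub hb')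
    have h : (a ∈ A.lv.filter (fun a => Φ a b = true)) ↔
        (a ∈ A.lv.filter (fun a => Φ a b' = true)) := by
      rw [e1, e2]
    rw [Finset.mem_filter, Finset.mem_filter] at h
    have ha' := hA'1.lv_sub ha
    have h' : Φ a b = true ↔ Φ a b' = true := by
      constructor
      · intro hh; exact (h.mp ⟨ha', hh⟩).2
      · intro hh; exact (h.mpr ⟨ha', hh⟩).2
    exact Bool.eq_iff_iff.mpr h'
  · intro b hb a ha a' ha'
    have e1 := hA'3 a ha
    have e2 := hA'3 a' ha'
    have h : (b ∈ B'.lv.filter (fun b => Φ b a = true)) ↔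
        (b ∈ B'.lv.filter (fun b => Φ b a' = true)) := by
      rw [e1, e2]
    rw [Finset.mem_filter, Finset.mem_filter] at h
    have h' : Φ b a = true ↔ Φ b a' = true := by
      constructor
      · intro hh; exact (h.mp ⟨hb, hh⟩).2
      · intro hh; exact (h.mpr ⟨hb, hh⟩).2
    exact Bool.eq_iff_iff.mpr h'

/-- homogeneity for pairs of leaves -/
def Good (Φ : ℕ → ℕ → Bool) : CT → Prop
  | .leaf _ _ => True
  | .node _ l r => Good Φ l ∧ Good Φ r ∧
      (∀ a ∈ l.lv, ∀ b ∈ r.lv, ∀ b' ∈ r.lv, Φ a b = Φ a b') ∧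
      ∀ b ∈ r.lv, ∀ a ∈ l.lv, ∀ a' ∈ l.lv, Φ b a = Φ b a'

theorem Good.emb {Φ : ℕ → ℕ → Bool} {b : Bool} {T' T : CT} (h : Emb b T' T) :
    Good Φ T → Good Φ T' := by
  induction h with
  | leaf h => exact fun _ => trivial
  | node hl hr ihl ihr =>
    rintro ⟨h1, h2, h3, h4⟩
    refine ⟨ihl h1, ihr h2, ?_, ?_⟩
    · exact fun a ha b hb b' hb' => h3 a (hl.lv_sub ha) b (hr.lv_sub hb) b' (hr.lv_sub hb')
    · exact fun b hb a ha a' ha' => h4 b (hr.lv_sub hb) a (hl.lv_sub ha) a' (hl.lv_sub ha')
  | here _ ih => exact ih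
  | left _ ih => exact fun h => ih h.1
  | right _ ih => exact fun h => ih h.2.1

/-- constants -/
def N2 : ℕ → ℕ
  | 0 => 0
  | k + 1 => N1 (N2 k) + 1

theorem exists_good (Φ : ℕ → ℕ → Bool) : ∀ (k : ℕ) (T : CT), perf (N2 k) T →
    ∃ T', Emb true T' T ∧ perf k T' ∧ Good Φ T'
  | 0, T, _ => by
    obtain ⟨a, ha⟩ := lv_nonempty T
    exact ⟨_, .leaf ha, trivial, trivial⟩
  | k + 1, .leaf _ _, h => absurd h (by simp [perf, N2])
  | k + 1, .node S l r, h => by
    obtain ⟨l1, r1, hl, hr, pl, pr, e1, e2⟩ := cross Φ (N2 k) l r h.1 h.2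
    obtain ⟨l2, hl2, pl2, gl⟩ := exists_good Φ k l1 pl
    obtain ⟨r2, hr2, pr2, gr⟩ := exists_good Φ k r1 pr
    refine ⟨.node S l2 r2, .node (hl.trans_ff hl2.weak) (hr.trans_ff hr2.weak), ⟨pl2, pr2⟩,
      gl, gr, ?_, ?_⟩
    · exact fun a ha b hb b' hb' =>
        e1 a (hl2.lv_sub ha) b (hr2.lv_sub hb) b' (hr2.lv_sub hb')
    · exact fun b hb a ha a' ha' =>
        e2 b (hr2.lv_sub hb) a (hl2.lv_sub ha) a' (hl2.lv_sub ha')

/-- homogeneity in terms of the sets of colours -/
theorem Good.rgs {Φ : ℕ → ℕ → Bool} : ∀ {T : CT}, T.WF → Good Φ T → ∀ S ∈ T.rgs,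
    ∀ a ∈ T.lv, ∀ b ∈ T.lv, ∀ b' ∈ T.lv, a ∉ S → b ∈ S → b' ∈ S → Φ a b = Φ a b'
  | .leaf S0 a0, _, _ => by
    intro S hS a ha b hb b' hb' _ _ _
    rw [Finset.mem_singleton.mp hb, Finset.mem_singleton.mp hb']
  | .node S0 l r, hT, hG => by
    obtain ⟨w1, w2, w3, w4, w5⟩ := hT
    obtain ⟨g1, g2, g3, g4⟩ := hG
    rintro S (rfl | hS | hS) a ha b hb b' hb' haS hbS hbS'
    · exact absurd (WF.lv_sub (T := .node S l r) ⟨w1, w2, w3, w4, w5⟩ ha) haS
    · have hSl := w4.rgs_sub S hS
      have hbl : ∀ x ∈ (CT.node S0 l r).lv, x ∈ S → x ∈ l.lv := by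
        intro x hx hxS
        rcases Finset.mem_union.mp hx with h | h
        · exact h
        · exact absurd (w5.lv_sub h) (Finset.disjoint_left.mp w3 (hSl hxS))
      rcases Finset.mem_union.mp ha with h | h
      · exact Good.rgs w4 g1 S hS a h b (hbl b hb hbS) b' (hbl b' hb' hbS') haS hbS hbS'
      · exact g4 a h b (hbl b hb hbS) b' (hbl b' hb' hbS')
    · have hSr := w5.rgs_sub S hS
      have hbr : ∀ x ∈ (CT.node S0 l r).lv, x ∈ S → x ∈ r.lv := by
        intro x hx hxS
        rcases Finset.mem_union.mp hx with h | h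
        · exact absurd (hSr hxS) (Finset.disjoint_left.mp w3 (w4.lv_sub h))
        · exact h
      rcases Finset.mem_union.mp ha with h | h
      · exact g3 a h b (hbr b hb hbS) b' (hbr b' hb' hbS')
      · exact Good.rgs w5 g2 S hS a h b (hbr b hb hbS) b' (hbr b' hb' hbS') haS hbS hbS'

/-- constants -/
def gg : ℕ → ℕ
  | 0 => 0
  | k + 1 => N2 (gg k + 1) + 1

end Pool.Agent.Helper617.CR
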